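import Pool.Agent.Grm.Main

/-!
# Subgroups of `CT(ℤ)` with a finite germ stabiliser

`S` is a finite subset of `CT(ℤ)`, `H` the group generated by `S`. If for some profinite integer `x` only
finitely many elements of `H` are the identity on a residue class around `x`, then the growth of `H` is
polynomially bounded, or `H` satisfies a linear isoperimetric inequality (so `H` is not amenable, and the
growth is exponential).
-/

namespace Pool.Agent.Results.MP_e2243a_al.GermAmenability

open Filter Pool.Agent.CTm Pool.Agent.Grm Nat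

theorem result (S : Finset (Equiv.Perm ℤ)) (hS : ∀ s ∈ S, s ∈ CT) (x : ℕ → ℤ) (hx : Pro x)
    (hK : {h | h ∈ Subgroup.closure (S : Set (Equiv.Perm ℤ)) ∧ FixNear x h}.Finite) :
    (∃ C d : ℕ, ∀ n : ℕ, 1 ≤ n → growth (S : Set (Equiv.Perm ℤ)) n ≤ C * n ^ d) ∨
      ∃ ε : ℝ, 0 < ε ∧ NonAmen (S : Set (Equiv.Perm ℤ)) ε ∧
        ∀ n : ℕ, (1 + ε) ^ n ≤ growth (S : Set (Equiv.Perm ℤ)) n :=
  alt_fin S hS hx hK

end Pool.Agent.Results.MP_e2243a_al.GermAmenability
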