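import Pool.Agent.Grm.Main

/-!
# Germ stabilisers of subgroups of `CT(ℤ)` of intermediate growth

`S` is a finite subset of `CT(ℤ)`, `H` the group generated by `S`, `x` a profinite integer. A residue
class is linked to `x` if the powers of some `T ∈ H` which fixes `x` carry points arbitrarily close to `x`
into it. If only finitely many elements of `H` are the identity on a residue class around `x` and have
a fixed point in every residue class linked to `x`, then the growth of `H` is polynomially bounded or
exponential, never intermediate.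
-/

namespace Pool.Agent.Results.MP_e2243a_al.GermStabilizers

open Filter Pool.Agent.CTm Pool.Agent.Grm Nat

theorem result (S : Finset (Equiv.Perm ℤ)) (hS : ∀ s ∈ S, s ∈ CT) (x : ℕ → ℤ) (hx : Pro x)
    (hN : {h | h ∈ Subgroup.closure (S : Set (Equiv.Perm ℤ)) ∧ FixNear x h ∧
      ∀ (r : ℤ) (m : ℕ), 0 < m → Linked (Subgroup.closure (S : Set (Equiv.Perm ℤ))) x r m →
        ∃ z : ℤ, (m : ℤ) ∣ z - r ∧ h z = z}.Finite) :
    ((∃ C d : ℕ, ∀ n : ℕ, 1 ≤ n → growth (S : Set (Equiv.Perm ℤ)) n ≤ C * n ^ d) ∨
      ∃ c : ℝ, 1 < c ∧ ∀ᶠ n : ℕ in atTop, c ^ n ≤ growth (S : Set (Equiv.Perm ℤ)) n) ∧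
    ¬ IntermediateGrowth (S : Set (Equiv.Perm ℤ)) := by
  have h := alt_near S hS hx hN
  exact ⟨h, h.elim not_intermediate_of_poly not_intermediate_of_exp⟩

end Pool.Agent.Results.MP_e2243a_al.GermStabilizers
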