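import Pool.Agent.CTm.Main

/-!
# Subgroups of `CT(ℤ)` whose slopes are powers of one integer

A finitely generated subgroup of `CT(ℤ)` all of whose generators have only slopes which are powers
of one integer `m ≥ 2` has a finite index abelian subgroup, or contains a free subsemigroup of
rank two. In particular it does not have intermediate growth.
-/

namespace Pool.Agent.Results.MP_e2243a_al.PowerSlopes

open Filter Topology Pool.Agent.CTm

theorem result (m : ℕ) (hm : 2 ≤ m) (S : Finset (Equiv.Perm ℤ))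
    (hS : ∀ s ∈ S, s ∈ CT ∧ SlopePow m s) :
    ((∃ A : Subgroup (Equiv.Perm ℤ), A ≤ Subgroup.closure (S : Set (Equiv.Perm ℤ)) ∧
        (A.subgroupOf (Subgroup.closure (S : Set (Equiv.Perm ℤ)))).FiniteIndex ∧
        ∀ a ∈ A, ∀ b ∈ A, a * b = b * a) ∨
      ∃ s ∈ Subgroup.closure (S : Set (Equiv.Perm ℤ)),
        ∃ t ∈ Subgroup.closure (S : Set (Equiv.Perm ℤ)), FreePair s t) ∧
    ((∃ C d : ℕ, ∀ n : ℕ, 1 ≤ n → growth (S : Set (Equiv.Perm ℤ)) n ≤ C * n ^ d) ∨
      ∃ c : ℝ, 1 < c ∧ ∀ᶠ n : ℕ in atTop, c ^ n ≤ growth (S : Set (Equiv.Perm ℤ)) n) ∧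
    ¬ IntermediateGrowth (S : Set (Equiv.Perm ℤ)) := by
  have h := alternative hm S hS
  refine ⟨h, ?_⟩
  rcases h with ⟨A, -, hA2, hA3⟩ | ⟨s, hs, t, ht, hst⟩
  · have h1 := poly_growth S A hA2 hA3
    exact ⟨Or.inl h1, not_intermediate_of_poly h1⟩
  · have h1 := exp_growth S.finite_toSet hs ht hst
    exact ⟨Or.inr h1, not_intermediate_of_exp h1⟩

end Pool.Agent.Results.MP_e2243a_al.PowerSlopes
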