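import Pool.Agent.Gr2.Asm

/-!
# Growth of subgroups of `CT(ℤ)` and their minimal sets in the profinite integers

`S` is a finite subset of `CT(ℤ)`, `H` the group generated by `S`. If the closure of the orbit of every almost periodic
profinite integer contains a profinite integer `y` which is tame, then the growth of `H` is polynomial or exponential.
Here `y` is tame if

* the germs of `H` along the orbit of `y` form a virtually abelian groupoid, or
* the elements of `H` which are the identity near `y` are the identity on one common residue class around `y`, or
* for some integer `k > 1` the orbit of `y` is finite in the `k`-adic integers, or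
* the slopes of `H` at `y` are of the form `f l ^ k`, where `f` lies in a finite set and `l > 1` is an integer, or
* the slopes of `H` at `y` are of the form `f a ^ i b ^ j`, where `f` lies in a finite set and `a`, `b` are coprime, and
  for some prime `p` dividing `a` the `p`-adic valuations of the slopes of `H` are unbounded above at every point of the
  closure of the orbit of `y`, or unbounded below at every such point, or
* the elements of `H` have arbitrarily large slopes on residue classes modulo a fixed `L` which meet the orbit of `y`, or
* some element of `H` is hyperbolic on a neighbourhood of the closure of the orbit of `y`.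
-/

namespace Pool.Agent.Results.MP_e2243a_al.TameMinimalSets

open Filter Pool.Agent.CTm Pool.Agent.Grm Pool.Agent.Lgp Pool.Agent.Uhy

theorem result (S : Finset (Equiv.Perm ℤ)) (hS : ∀ s ∈ S, s ∈ CT)
    (h : ∀ x : ℕ → ℤ, Pro x → AlmPer (Subgroup.closure (S : Set (Equiv.Perm ℤ))) x →
      ∃ y : ℕ → ℤ, Pro y ∧ Clo (Subgroup.closure (S : Set (Equiv.Perm ℤ))) x y ∧ Pool.Agent.Gr2.Tame S y) :
    ((∃ C d : ℕ, ∀ n : ℕ, 1 ≤ n → growth (S : Set (Equiv.Perm ℤ)) n ≤ C * n ^ d) ∨
      ∃ c : ℝ, 1 < c ∧ ∀ᶠ n : ℕ in atTop, c ^ n ≤ growth (S : Set (Equiv.Perm ℤ)) n) ∧
    ¬ IntermediateGrowth (S : Set (Equiv.Perm ℤ)) := by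
  have h1 := Pool.Agent.Gr2.tame_alt S hS h
  refine ⟨h1, ?_⟩
  rcases h1 with h1 | h1
  · exact not_intermediate_of_poly h1
  · exact not_intermediate_of_exp h1

end Pool.Agent.Results.MP_e2243a_al.TameMinimalSets
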